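import Pool.Agent.Helper57.SJ.Stmts
import Pool.Agent.Helper93.SI.FR

/-! Row FR2: a nonzero frequency is not small, with two more primes. -/

set_option autoImplicit false

namespace Pool.Agent.Helper94.SJ

open Pool.Agent.Helper57.QZ (Pr)
open Pool.Agent.Helper93.SI (fr_log fr_prime fr_fact fr_le)

theorem fr2_fact {z q : ℕ} (hq : q.Prime) (hzq : z < q) (a : Pr z → ℕ) (p : Pr z) :
    ((∏ p : Pr z, (p : ℕ) ^ a p) * q).factorization (p : ℕ) = a p := by
  have h0 : (∏ p : Pr z, (p : ℕ) ^ a p) ≠ 0 :=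
    Finset.prod_ne_zero_iff.2 fun p _ => pow_ne_zero _ (fr_prime p).ne_zero
  have hp : (p : ℕ) < z + 1 := Nat.lt_of_mem_primesBelow p.2
  rw [Nat.factorization_mul h0 hq.ne_zero, Finsupp.add_apply, fr_fact, hq.factorization,
    Finsupp.single_apply, if_neg (by omega), add_zero]

theorem st_FR2 : Pool.Agent.Helper57.SJ.ST_FR2 := by
  classical
  intro z K y q q' k hk hq hq' hzq hzq' hqy hqy' hor
  set a : Pr z → ℕ := fun p => (k p).toNat with ha
  set b : Pr z → ℕ := fun p => (-k p).toNat with hb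
  have hab : ∀ p, k p = (a p : ℤ) - (b p : ℤ) := by
    intro p
    simp only [ha, hb]
    omega
  have haK : ∀ p, a p ≤ K := by
    intro p
    have := abs_le.1 (hk p)
    simp only [ha]
    omega
  have hbK : ∀ p, b p ≤ K := by
    intro p
    have := abs_le.1 (hk p)
    simp only [hb]
    omega
  set A : ℕ := ∏ p : Pr z, (p : ℕ) ^ a p with hA
  set B : ℕ := ∏ p : Pr z, (p : ℕ) ^ b p with hB
  have hA1 : 1 ≤ A := Finset.one_le_prod' fun p _ => Nat.one_le_pow _ _ (fr_prime p).pos
  have hB1 : 1 ≤ B := Finset.one_le_prod' fun p _ => Nat.one_le_pow _ _ (fr_prime p).pos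
  have hne : A * q ≠ B * q' := by
    intro h
    have h3 : a = b := by
      funext p
      have h1 := fr2_fact hq hzq a p
      have h2 := fr2_fact hq' hzq' b p
      rw [← hA, h, hB, h2] at h1
      exact h1.symm
    have h4 : k = 0 := by
      funext p
      rw [hab p, h3, sub_self, Pi.zero_apply]
    have h5 : A = B := by rw [hA, hB, h3]
    rcases hor with h6 | h6
    · exact h6 h4
    · rw [h5] at h
      exact h6 (Nat.eq_of_mul_eq_mul_left hB1 h)
  have hlog : ∀ c : Pr z → ℕ, Real.log ((∏ p : Pr z, (p : ℕ) ^ c p : ℕ) : ℝ) =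
      ∑ p : Pr z, (c p : ℝ) * Real.log ((p : ℕ) : ℝ) := by
    intro c
    rw [Nat.cast_prod, Real.log_prod]
    · apply Finset.sum_congr rfl
      intro p _
      rw [Nat.cast_pow, Real.log_pow]
    · intro p _
      have := (fr_prime p).pos
      positivity
  have hA0 : (A : ℝ) ≠ 0 := by exact_mod_cast (by omega : A ≠ 0)
  have hB0 : (B : ℝ) ≠ 0 := by exact_mod_cast (by omega : B ≠ 0)
  have hq0 : (q : ℝ) ≠ 0 := by exact_mod_cast hq.ne_zero
  have hq0' : (q' : ℝ) ≠ 0 := by exact_mod_cast hq'.ne_zero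
  have hsum : (∑ p : Pr z, (k p : ℝ) * Real.log ((p : ℕ) : ℝ)) + Real.log q - Real.log q' =
      Real.log ((A * q : ℕ) : ℝ) - Real.log ((B * q' : ℕ) : ℝ) := by
    have h1 : ∑ p : Pr z, (k p : ℝ) * Real.log ((p : ℕ) : ℝ) = Real.log A - Real.log B := by
      rw [hA, hB, hlog a, hlog b, ← Finset.sum_sub_distrib]
      apply Finset.sum_congr rfl
      intro p _
      rw [hab p]
      push_cast
      ring
    rw [h1, Nat.cast_mul, Nat.cast_mul, Real.log_mul hA0 hq0, Real.log_mul hB0 hq0']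
    ring
  rw [hsum]
  have hle : ∀ (C r : ℕ), C ≤ 4 ^ (K * z) → r ≤ y → ((C * r : ℕ) : ℝ) ≤ (4 : ℝ) ^ (K * z) * y := by
    intro C r hC hr
    have : C * r ≤ 4 ^ (K * z) * y := Nat.mul_le_mul hC hr
    exact_mod_cast this
  exact fr_log (Nat.one_le_iff_ne_zero.2 (by
      have := hq.pos
      positivity)) (Nat.one_le_iff_ne_zero.2 (by
      have := hq'.pos
      positivity)) hne (hle A q (fr_le a haK) hqy) (hle B q' (fr_le b hbK) hqy')

end Pool.Agent.Helper94.SJ
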