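import Pool.Agent.Helper57.SJ.Stmts2

/-! Row TLD: the trivial bound for the primes in `(z, Z]`. -/

set_option autoImplicit false

namespace Pool.Agent.Helper94.SJ

open Pool.Agent.Helper57.QZ (Pr lin)
open Pool.Agent.Helper57.SI (tl P1 P2)

theorem tld_sum (y z Z : ℕ) (c : ℕ → ℝ) (hc : ∀ p, 0 ≤ c p) (h : z ≤ Z) :
    ∑ p : Pr y, (if z < (p : ℕ) ∧ (p : ℕ) ≤ Z then c p else 0) ≤
      (∑ p ∈ Nat.primesBelow (Z + 1), c p) - ∑ p ∈ Nat.primesBelow (z + 1), c p := by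
  classical
  have h1 : ∑ p : Pr y, (if z < (p : ℕ) ∧ (p : ℕ) ≤ Z then c p else 0) =
      ∑ p ∈ Nat.primesBelow (y + 1), (if z < p ∧ p ≤ Z then c p else 0) :=
    Finset.sum_coe_sort (Nat.primesBelow (y + 1)) (fun p => if z < p ∧ p ≤ Z then c p else 0)
  have hsub : Nat.primesBelow (z + 1) ⊆ Nat.primesBelow (Z + 1) := by
    intro p hp
    rw [Nat.mem_primesBelow] at hp ⊢
    exact ⟨by omega, hp.2⟩
  rw [h1, ← Finset.sum_filter, ← Finset.sum_sdiff hsub, add_sub_cancel_right]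
  refine Finset.sum_le_sum_of_subset_of_nonneg ?_ fun p _ _ => hc p
  intro p hp
  rw [Finset.mem_filter] at hp
  rw [Finset.mem_sdiff, Nat.mem_primesBelow, Nat.mem_primesBelow]
  exact ⟨⟨by omega, Nat.prime_of_mem_primesBelow hp.1⟩, fun h2 => by omega⟩

theorem tld_gen (j y z Z : ℕ) (φ : Pr y → ℝ) (h : z ≤ Z) :
    ‖tl j y z φ‖ ≤ ((∑ p ∈ Nat.primesBelow (Z + 1), Real.log (p : ℝ) ^ j / (p : ℝ)) -
      ∑ p ∈ Nat.primesBelow (z + 1), Real.log (p : ℝ) ^ j / (p : ℝ)) + ‖tl j y Z φ‖ := by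
  classical
  have hc : ∀ p : ℕ, 0 ≤ Real.log (p : ℝ) ^ j / (p : ℝ) := fun p => by
    have := Real.log_natCast_nonneg p
    positivity
  have hn : ∀ r : ℝ, ‖Complex.exp (-((r : ℂ) * Complex.I))‖ = 1 := fun r => by
    rw [Complex.norm_exp]
    simp
  have hdec : tl j y z φ = (∑ p : Pr y, if z < (p : ℕ) ∧ (p : ℕ) ≤ Z then
      ((Real.log ((p : ℕ) : ℝ) ^ j / ((p : ℕ) : ℝ) : ℝ) : ℂ) *
        Complex.exp (-((φ p : ℂ) * Complex.I)) else 0) + tl j y Z φ := by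
    unfold tl
    rw [← Finset.sum_add_distrib]
    refine Finset.sum_congr rfl fun p _ => ?_
    by_cases h1 : z < (p : ℕ)
    · by_cases h2 : (p : ℕ) ≤ Z
      · rw [if_pos h1, if_pos ⟨h1, h2⟩, if_neg (by omega), add_zero]
      · rw [if_pos h1, if_neg (fun h3 => h2 h3.2), if_pos (by omega), zero_add]
    · rw [if_neg h1, if_neg (fun h3 => h1 h3.1), if_neg (by omega), add_zero]
  rw [hdec]
  refine (norm_add_le _ _).trans (add_le_add_left ?_ _)
  refine (norm_sum_le _ _).trans (le_trans (Finset.sum_le_sum fun p _ => ?_)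
    (tld_sum y z Z (fun p => Real.log (p : ℝ) ^ j / (p : ℝ)) hc h))
  split_ifs
  · rw [norm_mul, hn, mul_one, Complex.norm_real, Real.norm_eq_abs, abs_of_nonneg (hc _)]
  · rw [norm_zero]

theorem st_TLD : Pool.Agent.Helper57.SJ.ST_TLD := by
  intro y z Z φ h
  have h0 := tld_gen 0 y z Z φ h
  have h1 := tld_gen 1 y z Z φ h
  simp only [pow_zero, pow_one] at h0 h1
  exact ⟨h0, h1⟩

end Pool.Agent.Helper94.SJ
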