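import Pool.Agent.Helper57.SJ.Stmts

/-! Row TLE: the tail as a sum over a set of primes. -/

set_option autoImplicit false

namespace Pool.Agent.Helper94.SJ

open Pool.Agent.Helper57.QZ (Pr lin)
open Pool.Agent.Helper57.SI (tl)
open Pool.Agent.Helper57.SJ (PP)

theorem st_TLE : Pool.Agent.Helper57.SJ.ST_TLE := by
  classical
  intro j y x t
  have hset : (Nat.primesBelow (y + 1)).filter (fun p => x < p) = PP x y := by
    ext p
    unfold PP
    simp only [Finset.mem_filter, Nat.mem_primesBelow, Finset.mem_Icc]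
    constructor
    · rintro ⟨⟨h1, h2⟩, h3⟩
      exact ⟨⟨by omega, by omega⟩, h2⟩
    · rintro ⟨⟨h1, h2⟩, h3⟩
      exact ⟨⟨by omega, h3⟩, by omega⟩
  rw [← hset, Finset.sum_filter]
  exact Finset.sum_coe_sort (Nat.primesBelow (y + 1)) (fun p => if x < p then
    ((Real.log (p : ℝ) ^ j / (p : ℝ) : ℝ) : ℂ) *
      Complex.exp (-((t * Real.log p : ℝ) * Complex.I)) else 0)

end Pool.Agent.Helper94.SJ
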